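import Mathlib

/-!
# The one-sided maximal inequality
-/

set_option autoImplicit false

namespace H84.BG

open Finset

/-- `i` is not forward good -/
def FBad (a : ℕ → ℕ) (K M i : ℕ) : Prop := ∃ j, i < j ∧ j ≤ M ∧ K * (j - i) < ∑ k ∈ Ico i j, a k

open Classical in
theorem max_ineq_aux (a : ℕ → ℕ) (K M : ℕ) (l : ℕ) : ∀ m, M - m ≤ l → m ≤ M →
    K * ((Ico m M).filter fun i => FBad a K M i).card ≤ ∑ k ∈ Ico m M, a k := by
  induction l using Nat.strong_induction_on with
  | _ l ih =>
  intro m hl hm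
  rcases Nat.eq_or_lt_of_le hm with h0 | h0
  · subst h0
    simp
  by_cases hb : FBad a K M m
  · obtain ⟨j, hj1, hj2, hj3⟩ := hb
    have h1 := ih (M - j) (by omega) j le_rfl hj2
    have h2 : (Ico m M).filter (fun i => FBad a K M i) ⊆
        Ico m j ∪ (Ico j M).filter fun i => FBad a K M i := by
      intro i hi
      rw [mem_filter, mem_Ico] at hi
      rw [mem_union, mem_filter, mem_Ico, mem_Ico]
      rcases lt_or_ge i j with h3 | h3
      · exact Or.inl ⟨hi.1.1, h3⟩
      · exact Or.inr ⟨⟨h3, hi.1.2⟩, hi.2⟩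
    have h3 := (card_le_card h2).trans (card_union_le _ _)
    rw [Nat.card_Ico] at h3
    calc K * ((Ico m M).filter fun i => FBad a K M i).card
        ≤ K * ((j - m) + ((Ico j M).filter fun i => FBad a K M i).card) := Nat.mul_le_mul_left _ h3
      _ = K * (j - m) + K * ((Ico j M).filter fun i => FBad a K M i).card := by ring
      _ ≤ ∑ k ∈ Ico m j, a k + ∑ k ∈ Ico j M, a k := add_le_add hj3.le h1
      _ = ∑ k ∈ Ico m M, a k := sum_Ico_consecutive a hj1.le hj2
  · have h1 := ih (M - (m + 1)) (by omega) (m + 1) le_rfl h0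
    have h2 : (Ico m M).filter (fun i => FBad a K M i) ⊆
        (Ico (m + 1) M).filter fun i => FBad a K M i := by
      intro i hi
      rw [mem_filter, mem_Ico] at hi
      rw [mem_filter, mem_Ico]
      refine ⟨⟨?_, hi.1.2⟩, hi.2⟩
      rcases Nat.eq_or_lt_of_le hi.1.1 with h3 | h3
      · exact absurd (h3 ▸ hi.2) hb
      · exact h3
    calc K * ((Ico m M).filter fun i => FBad a K M i).card
        ≤ K * ((Ico (m + 1) M).filter fun i => FBad a K M i).card :=
          Nat.mul_le_mul_left _ (card_le_card h2)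
      _ ≤ ∑ k ∈ Ico (m + 1) M, a k := h1
      _ ≤ ∑ k ∈ Ico m M, a k := sum_le_sum_of_subset (Ico_subset_Ico_left (Nat.le_succ m))

open Classical in
theorem max_ineq (a : ℕ → ℕ) (K M : ℕ) :
    K * ((range M).filter fun i => FBad a K M i).card ≤ ∑ k ∈ range M, a k := by
  have h := max_ineq_aux a K M M 0 (by omega) (Nat.zero_le M)
  rwa [← range_eq_Ico] at h

end H84.BG
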