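import Pool.Agent.H84.BG.Ret
import Pool.Agent.H84.BG.MaxI

/-!
# Types of windows with first returns
-/

set_option autoImplicit false
set_option linter.unusedVariables false
set_option linter.unusedSectionVars false

namespace H84.BG

open H84.Sch Finset

variable {G : Type} [Group G] {X : Type} [MulAction G X]

/-- the type of a window -/
def Cd (S : Finset G) (q R : ℕ) : Type :=
  Set (Fin q × Fin (2 * R)) × (S → Set (Fin q × Fin q)) × Set (Fin q × Fin q)

noncomputable instance (S : Finset G) (q R : ℕ) : Fintype (Cd S q R) := by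
  classical
  unfold Cd
  infer_instance

/-- the code of the window `i` with enumeration `e` -/
def cd (S : Finset G) (Rl : ℤ → X → X → Prop) (lam : X → ℤ) (q R i : ℕ) (e : X → Fin q) :
    Cd S q R :=
  ({p | ∃ x ∈ Vw lam R i, e x = p.1 ∧ lam x = 2 * R * i + ((p.2 : ℕ) : ℤ)},
   fun s => {p | ∃ x ∈ Vw lam R i, ∃ y ∈ Vw lam R i, e x = p.1 ∧ e y = p.2 ∧ (s : G) • x = y},
   {p | ∃ x ∈ Vw lam R i, ∃ y ∈ Vw lam R i, e x = p.1 ∧ e y = p.2 ∧ Rl (ctr R i) x y})

/-- Equal codes give maps between the windows. -/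
theorem map_of_cd {S : Finset G} {Rl : ℤ → X → X → Prop} {lam : X → ℤ} {q R i j : ℕ}
    {ei ej : X → Fin q} (hij : cd S Rl lam q R i ei = cd S Rl lam q R j ej)
    (hj : Set.InjOn ej (Vw lam R j)) :
    ∃ φ : X → X, (∀ x ∈ Vw lam R i, φ x ∈ Vw lam R j ∧ ej (φ x) = ei x ∧
        lam (φ x) = lam x + (ctr R j - ctr R i)) ∧
      (∀ s ∈ S, ∀ x ∈ Vw lam R i, s • x ∈ Vw lam R i → φ (s • x) = s • φ x) ∧
      (∀ x ∈ Vw lam R i, ∀ y ∈ Vw lam R i, Rl (ctr R i) x y → Rl (ctr R j) (φ x) (φ y)) := by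
  classical
  have c1 := congrArg Prod.fst hij
  have c2 := congrArg (fun c : Cd S q R => c.2.1) hij
  have c3 := congrArg (fun c : Cd S q R => c.2.2) hij
  simp only [cd] at c1 c2 c3
  have hex : ∀ x ∈ Vw lam R i, ∃ x' ∈ Vw lam R j, ej x' = ei x ∧
      lam x' = lam x + (ctr R j - ctr R i) := by
    intro x hx
    have hxx := hx
    obtain ⟨hx1, hx2⟩ := hxx
    have hlt : (lam x - 2 * R * i).toNat < 2 * R := by omega
    have hmem : (ei x, (⟨(lam x - 2 * R * i).toNat, hlt⟩ : Fin (2 * R))) ∈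
        {p : Fin q × Fin (2 * R) | ∃ x ∈ Vw lam R i, ei x = p.1 ∧
          lam x = 2 * R * i + ((p.2 : ℕ) : ℤ)} := by
      refine ⟨x, hx, rfl, ?_⟩
      show lam x = 2 * R * i + (((lam x - 2 * R * i).toNat : ℕ) : ℤ)
      rw [Int.toNat_of_nonneg (by omega)]
      ring
    rw [c1] at hmem
    obtain ⟨x', hx', he, hl⟩ := hmem
    refine ⟨x', hx', he, ?_⟩
    have hl' : lam x' = 2 * R * j + (((lam x - 2 * R * i).toNat : ℕ) : ℤ) := hl
    rw [Int.toNat_of_nonneg (by omega)] at hl'
    rw [hl']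
    unfold ctr
    ring
  choose! φ hφ1 hφ2 hφ3 using hex
  refine ⟨φ, fun x hx => ⟨hφ1 x hx, hφ2 x hx, hφ3 x hx⟩, ?_, ?_⟩
  · intro s hs x hx hsx
    have hmem : (ei x, ei (s • x)) ∈ {p : Fin q × Fin q | ∃ x ∈ Vw lam R i, ∃ y ∈ Vw lam R i,
        ei x = p.1 ∧ ei y = p.2 ∧ (((⟨s, hs⟩ : S) : G)) • x = y} :=
      ⟨x, hx, s • x, hsx, rfl, rfl, rfl⟩
    have c2' := congrFun c2 ⟨s, hs⟩
    rw [c2'] at hmem
    obtain ⟨a, ha, b, hb, he1, he2, hab⟩ := hmem
    have h1 : a = φ x := hj ha (hφ1 x hx) (he1.trans (hφ2 x hx).symm)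
    have h2 : b = φ (s • x) := hj hb (hφ1 _ hsx) (he2.trans (hφ2 _ hsx).symm)
    rw [← h1, ← h2]
    exact hab.symm
  · intro x hx y hy hE
    have hmem : (ei x, ei y) ∈ {p : Fin q × Fin q | ∃ x ∈ Vw lam R i, ∃ y ∈ Vw lam R i,
        ei x = p.1 ∧ ei y = p.2 ∧ Rl (ctr R i) x y} := ⟨x, hx, y, hy, rfl, rfl, hE⟩
    rw [c3] at hmem
    obtain ⟨a, ha, b, hb, he1, he2, hab⟩ := hmem
    have h1 : a = φ x := hj ha (hφ1 x hx) (he1.trans (hφ2 x hx).symm)
    have h2 : b = φ y := hj hb (hφ1 _ hy) (he2.trans (hφ2 _ hy).symm)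
    rw [← h1, ← h2]
    exact hab

/-- the escaping point at a level: the forward path leaves the levels `≤ n` before it returns -/
theorem exists_escape {g : G} {lam : X → ℤ} {n : ℤ} {x0 : X} {m : ℕ} (hm : n < lam (g ^ m • x0))
    {r : ℤ} (hr : lam x0 < r) (hrn : r ≤ n) :
    ∃ u' : X, lam u' < r ∧ r ≤ lam (g • u') ∧ ∀ d, ¬ Ret g lam n r (g • u') d := by
  classical
  have hex : ∃ m, n < lam (g ^ m • x0) := ⟨m, hm⟩
  set t := Nat.find hex with ht
  have ht1 : n < lam (g ^ t • x0) := Nat.find_spec hex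
  have ht2 : ∀ i < t, lam (g ^ i • x0) ≤ n := fun i hi => not_lt.1 (Nat.find_min hex hi)
  have ht0 : 0 < t := by
    rcases Nat.eq_zero_or_pos t with h | h
    · rw [h, pow_zero, one_smul] at ht1
      omega
    · exact h
  -- the last time below `r`
  let P : ℕ → Prop := fun j => j < t ∧ lam (g ^ j • x0) < r
  have hP0 : P 0 := ⟨ht0, by rw [pow_zero, one_smul]; exact hr⟩
  set j := Nat.findGreatest P t with hj
  have hPj : P j := Nat.findGreatest_spec (P := P) (Nat.zero_le t) hP0
  have hj2 : ∀ i, j < i → i < t → r ≤ lam (g ^ i • x0) := by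
    intro i hi hit
    by_contra hcon
    exact Nat.findGreatest_is_greatest (P := P) hi hit.le ⟨hit, by omega⟩
  have hstep : ∀ i, g ^ i • (g • (g ^ j • x0)) = g ^ (i + (j + 1)) • x0 := by
    intro i
    rw [pow_add, pow_succ', mul_smul, mul_smul]
  have h1 : r ≤ lam (g • g ^ j • x0) := by
    have h2 := hstep 0
    rw [pow_zero, one_smul, zero_add] at h2
    rw [h2]
    rcases Nat.eq_or_lt_of_le (Nat.succ_le_of_lt hPj.1) with h3 | h3
    · have h4 : j + 1 = t := h3
      rw [h4]
      omega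
    · exact hj2 (j + 1) (Nat.lt_succ_self j) h3
  refine ⟨g ^ j • x0, hPj.2, h1, ?_⟩
  rintro d ⟨k, hk, hd, hi⟩
  rw [hstep] at hk
  rcases lt_trichotomy (k + (j + 1)) t with h3 | h3 | h3
  · have := hj2 (k + (j + 1)) (by omega) h3
    rw [hk] at this
    omega
  · rw [h3] at hk
    rw [hk] at ht1
    omega
  · have h4 := (hi (t - (j + 1)) (by omega)).2
    rw [hstep, Nat.sub_add_cancel (Nat.succ_le_of_lt hPj.1)] at h4
    omega

/-- **Core.** Two windows with the same type, at levels with a light strip between them. -/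
theorem core (S : Finset G) (hinv : ∀ s ∈ S, s⁻¹ ∈ S) {R : ℕ} (hR : 1 ≤ R) (lam : X → ℤ)
    (hlip : ∀ s ∈ S, ∀ x, lam (s • x) ≤ lam x + 1) (Rl : ℤ → X → X → Prop) {n : ℕ}
    (hfin : {x : X | lam x ≤ n}.Finite) {T q M K : ℕ} (hT : {x : X | lam x ≤ n}.ncard ≤ T)
    (hM : 2 * R * M ≤ n) (h1 : 4 * T ≤ q * M) (h1' : 4 * T ≤ K * (M + 1)) (hq : 0 < q)
    (hK : 0 < K) (h2 : 4 * Fintype.card (Cd S q R) + 2 < M) :
    ∃ (r r' : ℤ) (φ ψ : X → X), Strip (S : Set G) (R : ℤ) lam r r' φ ψ ∧ R ≤ r ∧ r' + R ≤ n ∧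
      (∀ u d, r - R ≤ lam u → lam u < r + R → r - R ≤ lam d → lam d < r + R → Rl r u d →
        Rl r' (φ u) (φ d)) ∧
      2 * R * ({x : X | r ≤ lam x ∧ lam x < r'}.ncard : ℤ) ≤ K * (r' - r) := by
  classical
  -- the windows as finsets
  let B : Finset X := hfin.toFinset
  have hBT : B.card ≤ T := by
    rw [Set.ncard_eq_toFinset_card _ hfin] at hT
    exact hT
  have hRz : (1 : ℤ) ≤ R := by exact_mod_cast hR
  let V : ℕ → Finset X := fun i => B.filter fun x => x ∈ Vw lam R i
  let A : ℕ → Finset X := fun i => B.filter fun x => ctr R i ≤ lam x ∧ lam x < ctr R (i + 1)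
  have hVmem : ∀ i < M, ∀ x, x ∈ V i ↔ x ∈ Vw lam R i := by
    intro i hi x
    simp only [V, mem_filter]
    constructor
    · exact fun h => h.2
    · intro h
      refine ⟨?_, h⟩
      simp only [B, Set.Finite.mem_toFinset, Set.mem_ofPred_eq]
      have h3 : 2 * R * (i + 1) ≤ 2 * R * M := Nat.mul_le_mul_left _ hi
      have h4 : ((2 * R * (i + 1) : ℕ) : ℤ) ≤ (n : ℤ) := by exact_mod_cast h3.trans hM
      push_cast at h4
      have h5 := h.2
      linarith
  have hdisjG : ∀ (c : ℤ) (F : ℕ → Finset X), (∀ i x, x ∈ F i → c + 2 * R * i ≤ lam x ∧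
      lam x < c + 2 * R * i + 2 * R) → ∀ i ∈ range M, ∀ j ∈ range M, i ≠ j →
      Disjoint (F i) (F j) := by
    intro c F hF i _ j _ hij
    rw [disjoint_left]
    intro x hx hx'
    obtain ⟨a1, a2⟩ := hF i x hx
    obtain ⟨b1, b2⟩ := hF j x hx'
    apply hij
    have hRz' : (0 : ℤ) < 2 * R := by positivity
    rcases lt_trichotomy i j with h | h | h
    · exfalso
      have : (i : ℤ) + 1 ≤ j := by exact_mod_cast h
      have := mul_le_mul_of_nonneg_left this hRz'.le
      nlinarith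
    · exact h
    · exfalso
      have : (j : ℤ) + 1 ≤ i := by exact_mod_cast h
      have := mul_le_mul_of_nonneg_left this hRz'.le
      nlinarith
  have hsumG : ∀ F : ℕ → Finset X, (∀ i ∈ range M, ∀ j ∈ range M, i ≠ j →
      Disjoint (F i) (F j)) → (∀ i, F i ⊆ B) → ∑ i ∈ range M, (F i).card ≤ T := by
    intro F hF hFB
    rw [← card_biUnion hF]
    refine (card_le_card ?_).trans hBT
    intro x hx
    obtain ⟨i, -, hi⟩ := mem_biUnion.1 hx
    exact hFB i hi
  have hVsum : ∑ i ∈ range M, (V i).card ≤ T := by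
    apply hsumG V (hdisjG 0 V ?_) fun i => filter_subset _ _
    intro i x hx
    obtain ⟨a1, a2⟩ := (mem_filter.1 hx).2
    constructor <;> linarith
  have hAsum : ∑ i ∈ range M, (A i).card ≤ T := by
    apply hsumG A (hdisjG R A ?_) fun i => filter_subset _ _
    intro i x hx
    obtain ⟨a1, a2⟩ := (mem_filter.1 hx).2
    unfold ctr at a1 a2
    push_cast at a1 a2
    constructor <;> linarith
  -- good windows
  let good := (range M).filter fun i => (V i).card ≤ q ∧ ¬ FBad (fun k => (A k).card) K M i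
  let bad1 := (range M).filter fun i => ¬ (V i).card ≤ q
  let bad2 := (range M).filter fun i => FBad (fun k => (A k).card) K M i
  have hgb : M ≤ good.card + (bad1.card + bad2.card) := by
    have h3 : range M ⊆ good ∪ (bad1 ∪ bad2) := by
      intro i hi
      by_cases a : (V i).card ≤ q
      · by_cases b : FBad (fun k => (A k).card) K M i
        · exact mem_union_right _ (mem_union_right _ (mem_filter.2 ⟨hi, b⟩))
        · exact mem_union_left _ (mem_filter.2 ⟨hi, a, b⟩)
      · exact mem_union_right _ (mem_union_left _ (mem_filter.2 ⟨hi, a⟩))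
    have h4 := card_le_card h3
    rw [card_range] at h4
    refine h4.trans ((card_union_le _ _).trans ?_)
    exact Nat.add_le_add_left (card_union_le _ _) _
  have hbad1 : 4 * bad1.card ≤ M := by
    have h3 : bad1.card * q ≤ T := by
      calc bad1.card * q = ∑ i ∈ bad1, q := by rw [sum_const, smul_eq_mul]
        _ ≤ ∑ i ∈ bad1, (V i).card := sum_le_sum fun i hi => by
            have := (mem_filter.1 hi).2
            omega
        _ ≤ ∑ i ∈ range M, (V i).card := sum_le_sum_of_subset (filter_subset _ _)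
        _ ≤ T := hVsum
    have h4 : q * (4 * bad1.card) ≤ q * M := by
      calc q * (4 * bad1.card) = 4 * (bad1.card * q) := by ring
        _ ≤ 4 * T := by omega
        _ ≤ q * M := h1
    exact Nat.le_of_mul_le_mul_left h4 hq
  have hbad2 : 4 * bad2.card ≤ M + 1 := by
    have h3 := (max_ineq (fun k => (A k).card) K M).trans hAsum
    have h4 : K * (4 * bad2.card) ≤ K * (M + 1) := by
      calc K * (4 * bad2.card) = 4 * (K * bad2.card) := by ring
        _ ≤ 4 * T := by
          have h5 : K * bad2.card ≤ T := by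
            convert h3 using 3
          omega
        _ ≤ K * (M + 1) := h1'
    exact Nat.le_of_mul_le_mul_left h4 hK
  have henum : ∀ i ∈ good, ∃ e : X → Fin q, Set.InjOn e (V i : Set X) := fun i hi =>
    enum hq _ (mem_filter.1 hi).2.1
  have hne : Nonempty (X → Fin q) := ⟨fun _ => ⟨0, hq⟩⟩
  choose! e he using henum
  have hpig : (univ : Finset (Cd S q R)).card < good.card := by
    rw [card_univ]
    omega
  obtain ⟨i, hi, j, hj, hij, hcode⟩ := exists_ne_map_eq_of_card_lt_of_maps_to hpig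
    (f := fun i => cd S Rl lam q R i (e i)) (fun i _ => mem_univ _)
  wlog hlt : i < j generalizing i j
  · exact this j hj i hi (Ne.symm hij) hcode.symm (by omega)
  have hiM : i < M := mem_range.1 (mem_filter.1 hi).1
  have hjM : j < M := mem_range.1 (mem_filter.1 hj).1
  have hinji : Set.InjOn (e i) (Vw lam R i) := fun x hx y hy => he i hi
    (mem_coe.2 ((hVmem i hiM x).2 hx)) (mem_coe.2 ((hVmem i hiM y).2 hy))
  have hinjj : Set.InjOn (e j) (Vw lam R j) := fun x hx y hy => he j hj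
    (mem_coe.2 ((hVmem j hjM x).2 hx)) (mem_coe.2 ((hVmem j hjM y).2 hy))
  obtain ⟨φ, hφ, hφs, hφe⟩ := map_of_cd hcode hinjj
  obtain ⟨ψ, hψ, hψs, -⟩ := map_of_cd hcode.symm hinji
  have hwin : ∀ (i : ℕ) (x : X), x ∈ Vw lam R i ↔ ctr R i - R ≤ lam x ∧ lam x < ctr R i + R := by
    intro i x
    unfold Vw ctr
    simp only [Set.mem_ofPred_eq]
    constructor
    · rintro ⟨a, b⟩
      constructor <;> linarith
    · rintro ⟨a, b⟩
      constructor <;> linarith
  have hcc : ctr R i + R ≤ ctr R j - R := by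
    unfold ctr
    have : (i : ℤ) + 1 ≤ j := by exact_mod_cast hlt
    have := mul_le_mul_of_nonneg_left this (by positivity : (0 : ℤ) ≤ 2 * R)
    linarith
  have hstrip : Strip (S : Set G) (R : ℤ) lam (ctr R i) (ctr R j) φ ψ :=
    { inv_mem := fun s hs => mem_coe.2 (hinv s (mem_coe.1 hs))
      hR := hRz
      hrr := hcc
      lip := fun s hs x => hlip s (mem_coe.1 hs) x
      φ_lev := fun x a b => (hφ x ((hwin i x).2 ⟨a, b⟩)).2.2
      ψ_lev := fun y a b => by
        have := (hψ y ((hwin j y).2 ⟨a, b⟩)).2.2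
        linarith
      ψφ := fun x a b => by
        have hx := (hwin i x).2 ⟨a, b⟩
        have h3 := hφ x hx
        have h4 := hψ _ h3.1
        exact hinji h4.1 hx (h4.2.1.trans h3.2.1)
      φψ := fun y a b => by
        have hy := (hwin j y).2 ⟨a, b⟩
        have h3 := hψ y hy
        have h4 := hφ _ h3.1
        exact hinjj h4.1 hy (h4.2.1.trans h3.2.1)
      φ_smul := fun s hs x a b a' b' =>
        hφs s (mem_coe.1 hs) x ((hwin i x).2 ⟨a, b⟩) ((hwin i _).2 ⟨a', b'⟩)
      ψ_smul := fun s hs x a b a' b' =>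
        hψs s (mem_coe.1 hs) x ((hwin j x).2 ⟨a, b⟩) ((hwin j _).2 ⟨a', b'⟩) }
  have hctrn : ctr R j + R ≤ n := by
    unfold ctr
    have h3 : 2 * R * (j + 1) ≤ 2 * R * M := Nat.mul_le_mul_left _ hjM
    have h4 : ((2 * R * (j + 1) : ℕ) : ℤ) ≤ (n : ℤ) := by exact_mod_cast h3.trans hM
    push_cast at h4
    linarith
  refine ⟨ctr R i, ctr R j, φ, ψ, hstrip, ?_, hctrn, ?_, ?_⟩
  · unfold ctr
    have : (0 : ℤ) ≤ 2 * R * i := by positivity
    linarith
  · intro u d a b a' b' hE
    exact hφe u ((hwin i u).2 ⟨a, b⟩) d ((hwin i d).2 ⟨a', b'⟩) hE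
  · -- the number of points of the strip
    have h3 : ∑ k ∈ Ico i j, (A k).card ≤ K * (j - i) := by
      by_contra hcon
      exact (mem_filter.1 hi).2.2 ⟨j, hlt, hjM.le, not_le.1 hcon⟩
    have h4 : {x : X | ctr R i ≤ lam x ∧ lam x < ctr R j} ⊆
        (((Ico i j).biUnion A : Finset X) : Set X) := by
      intro x hx
      obtain ⟨a1, a2⟩ := hx
      rw [mem_coe, mem_biUnion]
      -- the index of the level
      have hR2 : (0 : ℤ) < 2 * R := by positivity
      set k : ℤ := (lam x - R) / (2 * R) with hk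
      have hk1 : 2 * R * k ≤ lam x - R := Int.mul_ediv_self_le hR2.ne'
      have hk2 : lam x - R < 2 * R * k + 2 * R := by
        have := Int.lt_mul_ediv_self_add (x := lam x - R) hR2
        linarith
      have hik : (i : ℤ) ≤ k := by
        rw [hk]
        apply (Int.le_ediv_iff_mul_le hR2).2
        unfold ctr at a1
        linarith
      have hkj : k < j := by
        rw [hk]
        apply Int.ediv_lt_of_lt_mul hR2
        unfold ctr at a2
        linarith
      obtain ⟨k', hk'⟩ : ∃ k' : ℕ, (k' : ℤ) = k := ⟨k.toNat, Int.toNat_of_nonneg (by omega)⟩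
      refine ⟨k', mem_Ico.2 ⟨by omega, by omega⟩, mem_filter.2 ⟨?_, ?_, ?_⟩⟩
      · simp only [B, Set.Finite.mem_toFinset, Set.mem_ofPred_eq]
        linarith
      · unfold ctr
        rw [hk']
        linarith
      · unfold ctr
        push_cast
        rw [hk']
        linarith
    have h5 : {x : X | ctr R i ≤ lam x ∧ lam x < ctr R j}.ncard ≤ K * (j - i) := by
      refine (Set.ncard_le_ncard h4 (finite_toSet _)).trans ?_
      rw [Set.ncard_coe_finset]
      exact card_biUnion_le.trans h3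
    have h6 : ctr R j - ctr R i = 2 * R * ((j - i : ℕ) : ℤ) := by
      unfold ctr
      rw [Nat.cast_sub hlt.le]
      ring
    rw [h6]
    calc 2 * R * ({x : X | ctr R i ≤ lam x ∧ lam x < ctr R j}.ncard : ℤ)
        ≤ 2 * R * ((K * (j - i) : ℕ) : ℤ) := by
          apply mul_le_mul_of_nonneg_left _ (by positivity)
          exact_mod_cast h5
      _ = K * (2 * R * ((j - i : ℕ) : ℤ)) := by
          push_cast
          ring

end H84.BG
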