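import Pool.Agent.H84.BG.Ret
import Pool.Agent.H89.SG.Defs

/-!
# The line of a glued strip
-/

set_option autoImplicit false
set_option linter.unusedVariables false
set_option linter.unusedSectionVars false
set_option warn.classDefReducibility false

namespace H84.BG

open H84.Sch Pool.Agent.H89.SG

variable {G : Type} [Group G] {X : Type} [MulAction G X]
variable {S : Set G} {R : ℤ} {lam : X → ℤ} {r r' : ℤ} {φ ψ : X → X}

/-- the cocycle -/
def bet (Ψ : G →* Equiv.Perm (Glued lam r r')) (g : G) (z : Zs lam r r') : ℤ := (Ψ g (toG z)).1.2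

/-- the action on the strip, as a function -/
def mv (Ψ : G →* Equiv.Perm (Glued lam r r')) (g : G) (z : Zs lam r r') : Zs lam r r' :=
  ⟨(Ψ g (toG z)).1.1, (Ψ g (toG z)).2⟩

theorem Psi_toG (Ψ : G →* Equiv.Perm (Glued lam r r')) (g : G) (z : Zs lam r r') :
    Ψ g (toG z) = tau (bet Ψ g z) (toG (mv Ψ g z)) := by
  conv_lhs => rw [eq_tau (Ψ g (toG z))]
  rfl

theorem bet_mul {Ψ : G →* Equiv.Perm (Glued lam r r')}
    (hc : ∀ (g : G) (m : ℤ) (p : Glued lam r r'), Ψ g (tau m p) = tau m (Ψ g p)) (a b : G)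
    (z : Zs lam r r') : bet Ψ (a * b) z = bet Ψ a (mv Ψ b z) + bet Ψ b z := by
  show (Ψ (a * b) (toG z)).1.2 = _
  rw [map_mul, Equiv.Perm.mul_apply, Psi_toG Ψ b z, hc]
  rfl

/-- **The line.** -/
theorem mk_line (h : Strip S R lam r r' φ ψ) {Ψ : G →* Equiv.Perm (Glued lam r r')}
    (hΨ : ∀ s ∈ S, ∀ p, (Ψ s p).1 = act lam r r' φ ψ s p.1)
    (hc : ∀ (g : G) (m : ℤ) (p : Glued lam r r'), Ψ g (tau m p) = tau m (Ψ g p))
    (hfin : {x : X | r ≤ lam x ∧ lam x < r'}.Finite) (g : G) (p : Glued lam r r')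
    (hp : ∀ k : ℕ, 0 < k → Ψ (g ^ k) p ≠ p) (S₀ : Finset G) (hS₀ : ∀ s ∈ S₀, s ∈ S) :
    ∃ L : Line G S₀, (Fintype.card L.Q : ℤ) ≤ ({x : X | r ≤ lam x ∧ lam x < r'}.ncard : ℤ) ∧
      L.ℓ = r' - r ∧ L.Det g := by
  classical
  have hR := h.hR
  have hrr := h.hrr
  have hfZ : Finite (Zs lam r r') := hfin.to_subtype
  -- pigeonhole
  obtain ⟨k, l, hkl, heq⟩ : ∃ k l : ℕ, k < l ∧
      (⟨(Ψ (g ^ k) p).1.1, (Ψ (g ^ k) p).2⟩ : Zs lam r r') =
        ⟨(Ψ (g ^ l) p).1.1, (Ψ (g ^ l) p).2⟩ := by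
    obtain ⟨k, l, hne, he⟩ := @Finite.exists_ne_map_eq_of_infinite ℕ (Zs lam r r') _ hfZ
      (fun k : ℕ => (⟨(Ψ (g ^ k) p).1.1, (Ψ (g ^ k) p).2⟩ : Zs lam r r'))
    rcases lt_or_gt_of_ne hne with h1 | h1
    · exact ⟨k, l, h1, he⟩
    · exact ⟨l, k, h1, he.symm⟩
  set z : Zs lam r r' := ⟨(Ψ (g ^ k) p).1.1, (Ψ (g ^ k) p).2⟩ with hz
  have h1 : Ψ (g ^ k) p = tau (Ψ (g ^ k) p).1.2 (toG z) := eq_tau _
  have h2 : Ψ (g ^ l) p = tau (Ψ (g ^ l) p).1.2 (toG z) := by
    conv_lhs => rw [eq_tau (Ψ (g ^ l) p)]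
    rw [heq]
  have h3 : Ψ (g ^ (l - k)) (Ψ (g ^ k) p) = Ψ (g ^ l) p := by
    rw [← Equiv.Perm.mul_apply, ← map_mul, ← pow_add, Nat.sub_add_cancel hkl.le]
  have h4 : tau (Ψ (g ^ k) p).1.2 (Ψ (g ^ (l - k)) (toG z)) =
      tau (Ψ (g ^ l) p).1.2 (toG z) := by
    rw [← hc, ← h1, h3]
    exact h2
  have h5 : Ψ (g ^ (l - k)) (toG z) =
      tau ((Ψ (g ^ l) p).1.2 - (Ψ (g ^ k) p).1.2) (toG z) := by
    have h6 := congrArg (tau (-(Ψ (g ^ k) p).1.2)) h4
    rw [tau_tau, tau_tau, add_neg_cancel] at h6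
    have h7 : ∀ q : Glued lam r r', tau 0 q = q := fun q => by
      apply Subtype.ext
      show (q.1.1, q.1.2 + 0) = q.1
      rw [add_zero]
    rw [h7] at h6
    rw [h6, sub_eq_add_neg]
  have hmv : mv Ψ (g ^ (l - k)) z = z := by
    apply Subtype.ext
    show (Ψ (g ^ (l - k)) (toG z)).1.1 = z.1
    rw [h5]
    rfl
  have hbet : bet Ψ (g ^ (l - k)) z ≠ 0 := by
    intro h6
    have h7 := Psi_toG Ψ (g ^ (l - k)) z
    rw [h6, hmv] at h7
    have h8 : tau 0 (toG z) = toG z := by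
      apply Subtype.ext
      show (z.1, (0 : ℤ) + 0) = (z.1, 0)
      rw [add_zero]
    rw [h8] at h7
    apply hp (l - k) (by omega)
    have h9 : Ψ (g ^ (l - k)) (Ψ (g ^ k) p) = Ψ (g ^ k) p := by
      rw [h1, hc, h7]
    rw [← Equiv.Perm.mul_apply, ← map_mul, ← pow_add, add_comm, pow_add, map_mul,
      Equiv.Perm.mul_apply] at h9
    exact (Ψ (g ^ k)).injective h9
  -- the line
  let act' : MulAction G (Zs lam r r') := zAct Ψ hc
  have hsm : ∀ (a : G) (z : Zs lam r r'), a • z = mv Ψ a z := fun _ _ => rfl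
  let Q : Set (Zs lam r r') := MulAction.orbit G z
  let fQ : Fintype Q := Fintype.ofFinite Q
  let L : Line G S₀ :=
    { Q := Q
      fin := fQ
      act := inferInstance
      trans := fun p q => MulAction.exists_smul_eq G p q
      β := fun a q => bet Ψ a q.1
      coc := fun a b q => bet_mul hc a b q.1
      ℓ := r' - r
      hℓ := by omega
      v := fun q => lam q.1.1
      lip := fun s hs q => by
        have hsS := hS₀ s hs
        have e1 : lam (s • q).1.1 + (r' - r) * bet Ψ s q.1 = ht (Ψ s (toG q.1)) := rfl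
        have e2 : Ψ s (toG q.1) = dv h (s • q.1.1) ⟨by
            have := h.lip' hsS q.1.1
            have := q.1.2.1
            omega, by
            have := h.lip s hsS q.1.1
            have := q.1.2.2
            omega⟩ := by
          apply Subtype.ext
          rw [hΨ s hsS]
          show ((dev lam r r' φ ψ (s • q.1.1)).1, (dev lam r r' φ ψ (s • q.1.1)).2 + 0) =
            dev lam r r' φ ψ (s • q.1.1)
          rw [add_zero]
        rw [e1, e2, ht_dv, abs_le]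
        have := h.lip' hsS q.1.1
        have := h.lip s hsS q.1.1
        constructor <;> omega }
  refine ⟨L, ?_, rfl, ?_⟩
  · have h6 : Fintype.card L.Q ≤ Nat.card (Zs lam r r') := by
      rw [Fintype.card_eq_nat_card]
      exact Nat.card_le_card_of_injective (Subtype.val : Q → Zs lam r r') Subtype.val_injective
    exact_mod_cast h6
  · refine ⟨⟨z, MulAction.mem_orbit_self z⟩, l - k, ?_, hbet⟩
    apply Subtype.ext
    exact hmv

end H84.BG
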