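import Pool.Agent.H84.BG.Code
import Pool.Agent.H84.BG.MkLine
import Pool.Agent.H84.Sch.Final

/-!
# A `G`-set with a level function gives a line
-/

set_option autoImplicit false
set_option linter.unusedVariables false
set_option linter.unusedSectionVars false

namespace H84.BG

open H84.Sch Pool.Agent.H89.SG

variable {G : Type} [Group G]

theorem line_of_level (S : Finset G) (hcl : Subgroup.closure (S : Set G) = ⊤) {N : ℕ}
    (hLG : LG (Sym S) N) {C : ℕ} (hC : 0 < C) {w : List G} (hw : ∀ s ∈ w, s ∈ SymF S) {R : ℕ}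
    (hR : N + w.length + 1 ≤ R) {n : ℕ}
    (hn : 4 * Fintype.card (Cd (SymF S) (16 * R * C) R) + 2 < n / (2 * R)) {X : Type}
    [MulAction G X] (lam : X → ℤ) (hlip : ∀ s ∈ SymF S, ∀ x, lam (s • x) ≤ lam x + 1) (x0 : X)
    (hx0 : lam x0 = 0) (m : ℕ) (hm : (n : ℤ) < lam (w.prod ^ m • x0))
    (hfin : {x : X | lam x ≤ n}.Finite) (hT : {x : X | lam x ≤ n}.ncard ≤ C * n) :
    ∃ L : Line G S, L.Dens (4 * C) ∧ L.Det w.prod := by
  classical
  have hR1 : 1 ≤ R := by omega
  have hlt : n < 2 * R * (n / (2 * R) + 1) := Nat.lt_mul_div_succ n (by omega : 0 < 2 * R)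
  have hM1 : 1 ≤ n / (2 * R) := by omega
  obtain ⟨r, r', φ, ψ, h, hRr, hrn, hret, hcard⟩ := core (SymF S) (SymF_inv S) hR1 lam hlip
    (fun r u d => Ret w.prod lam n r u d) hfin (T := C * n) (q := 16 * R * C)
    (M := n / (2 * R)) (K := 8 * R * C) hT (Nat.mul_div_le n (2 * R)) (by
      calc 4 * (C * n) ≤ 4 * (C * (2 * R * (n / (2 * R) + 1))) := by gcongr
        _ ≤ 4 * (C * (2 * R * (n / (2 * R) + n / (2 * R)))) := by gcongr
        _ = 16 * R * C * (n / (2 * R)) := by ring) (by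
      calc 4 * (C * n) ≤ 4 * (C * (2 * R * (n / (2 * R) + 1))) := by gcongr
        _ = 8 * R * C * (n / (2 * R) + 1) := by ring) (by positivity) (by positivity) hn
  have hR' := h.hR
  have hrr := h.hrr
  have hclS : Subgroup.closure (SymF S : Set G) = ⊤ := by rw [coe_SymF]; exact Sym_closure hcl
  have hLG' : LG (SymF S : Set G) N := by rw [coe_SymF]; exact hLG
  obtain ⟨Ψ, hΨ⟩ := h.exists_hom (N := N) (by exact_mod_cast (by omega : N ≤ R)) hLG'
  have hc := comm_tau (φ := φ) (ψ := ψ) hclS hΨ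
  have hlen : (w.length : ℤ) ≤ R := by exact_mod_cast (by omega : w.length ≤ R)
  by_cases hper : ∀ p : Glued lam r r', ∃ k : ℕ, 0 < k ∧ Ψ (w.prod ^ k) p = p
  · exfalso
    obtain ⟨u', hu1, hu2, hu3⟩ := exists_escape (r := r) hm (by omega) (by omega)
    have hlw := h.lam_word w hw u'
    obtain ⟨d, hd⟩ := no_escape h hΨ hc hw hlen (n := n) (by omega)
      (fun u d a b c d' => hret u d (by omega) b c (by omega)) hper (u' := u') (by omega) hu1 hu2
    exact hu3 d hd
  · push Not at hper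
    obtain ⟨p, hp⟩ := hper
    obtain ⟨L, hL1, hL2, hL3⟩ := mk_line h hΨ hc (hfin.subset fun x hx => by
      have := hx.2
      simp only [Set.mem_ofPred_eq]
      omega) w.prod p hp S (fun s hs => Finset.mem_coe.2 (mem_SymF.2 (Or.inl hs)))
    refine ⟨L, ?_, hL3⟩
    have h1 : (2 * R : ℤ) * ({x : X | r ≤ lam x ∧ lam x < r'}.ncard : ℤ) ≤
        2 * R * (4 * C * (r' - r)) := by
      calc (2 * R : ℤ) * ({x : X | r ≤ lam x ∧ lam x < r'}.ncard : ℤ)
          ≤ ((8 * R * C : ℕ) : ℤ) * (r' - r) := hcard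
        _ = 2 * R * (4 * C * (r' - r)) := by push_cast; ring
    have h2 := le_of_mul_le_mul_left h1 (by positivity : (0 : ℤ) < 2 * R)
    unfold Line.Dens
    rw [hL2]
    push_cast
    exact hL1.trans h2

/-- `Det` does not change under inversion -/
theorem det_inv {S : Finset G} {L : Line G S} {g : G} (h : L.Det g⁻¹) : L.Det g := by
  obtain ⟨q, k, h1, h2⟩ := h
  have h3 : (g ^ k) • q = q := by
    rw [inv_pow] at h1
    rw [← h1, smul_inv_smul, h1]
  refine ⟨q, k, h3, ?_⟩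
  intro h4
  apply h2
  have h5 := L.coc (g⁻¹ ^ k) (g ^ k) q
  have h6 : g⁻¹ ^ k * g ^ k = 1 := by rw [inv_pow, inv_mul_cancel]
  rw [h6, h3, h4, add_zero] at h5
  have h7 := L.coc 1 1 q
  rw [mul_one, one_smul] at h7
  omega

end H84.BG
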