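import Pool.Agent.H84.Sch.Win

/-!
# First returns of the forward path of an element

`Ret g lam n r u d`: the path `u, g u, g² u, …` stays in the levels `[r, n]` until it reaches `d`,
which is below `r`. In the glued `G`-set of a strip whose two windows have the same first returns,
a path which returns below the lower level of the strip does so in `X`, at the same point.
-/

set_option autoImplicit false
set_option linter.unusedVariables false
set_option linter.unusedSectionVars false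

namespace H84.BG

open H84.Sch

variable {G : Type} [Group G] {X : Type} [MulAction G X]

/-- first return below `r`, inside `[., n]` -/
def Ret (g : G) (lam : X → ℤ) (n r : ℤ) (u d : X) : Prop :=
  ∃ k : ℕ, g ^ k • u = d ∧ lam d < r ∧ ∀ i < k, r ≤ lam (g ^ i • u) ∧ lam (g ^ i • u) ≤ n

theorem Ret.cons {g : G} {lam : X → ℤ} {n r : ℤ} {u d : X} (h1 : r ≤ lam u) (h2 : lam u ≤ n)
    (h : Ret g lam n r (g • u) d) : Ret g lam n r u d := by
  obtain ⟨k, hk, hd, hi⟩ := h
  refine ⟨k + 1, by rw [pow_succ, mul_smul, hk], hd, fun i hi' => ?_⟩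
  rcases Nat.eq_zero_or_pos i with h0 | h0
  · subst h0
    rw [pow_zero, one_smul]
    exact ⟨h1, h2⟩
  · obtain ⟨j, rfl⟩ : ∃ j, i = j + 1 := ⟨i - 1, by omega⟩
    rw [pow_succ, mul_smul]
    exact hi j (by omega)

theorem Ret.one {g : G} {lam : X → ℤ} {n r : ℤ} {u : X} (h1 : r ≤ lam u) (h2 : lam u ≤ n)
    (h : lam (g • u) < r) : Ret g lam n r u (g • u) :=
  Ret.cons h1 h2 ⟨0, by rw [pow_zero, one_smul], h, fun i hi => absurd hi (Nat.not_lt_zero i)⟩

theorem Ret.trans {g : G} {lam : X → ℤ} {n r r' : ℤ} (hr : r ≤ r') {u e d : X}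
    (h : Ret g lam n r' u e) (h' : Ret g lam n r e d) : Ret g lam n r u d := by
  obtain ⟨k, hk, -, hi⟩ := h
  obtain ⟨k', hk', hd, hi'⟩ := h'
  refine ⟨k' + k, by rw [pow_add, mul_smul, hk, hk'], hd, fun i hi'' => ?_⟩
  rcases lt_or_ge i k with h1 | h1
  · have := hi i h1
    exact ⟨by omega, this.2⟩
  · obtain ⟨j, rfl⟩ : ∃ j, i = j + k := ⟨i - k, by omega⟩
    rw [pow_add, mul_smul, hk]
    exact hi' j (by omega)

variable {S : Set G} {R : ℤ} {lam : X → ℤ} {r r' : ℤ} {φ ψ : X → X}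

/-- height in the glued set -/
def ht (p : Glued lam r r') : ℤ := lam p.1.1 + (r' - r) * p.1.2

theorem ht_tau (m : ℤ) (p : Glued lam r r') : ht (tau m p) = ht p + (r' - r) * m := by
  show lam p.1.1 + (r' - r) * (p.1.2 + m) = lam p.1.1 + (r' - r) * p.1.2 + (r' - r) * m
  ring

/-- the point of the glued set over a point near the strip -/
noncomputable def dv (h : Strip S R lam r r' φ ψ) (x : X)
    (hx : r - R ≤ lam x ∧ lam x < r' + R) : Glued lam r r' :=
  ⟨dev lam r r' φ ψ x, h.dev_mem hx.1 hx.2⟩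

theorem ht_dv (h : Strip S R lam r r' φ ψ) (x : X) (hx : r - R ≤ lam x ∧ lam x < r' + R) :
    ht (dv h x hx) = lam x := by
  have hR := h.hR
  have hrr := h.hrr
  show lam (dev lam r r' φ ψ x).1 + (r' - r) * (dev lam r r' φ ψ x).2 = lam x
  rcases lt_or_ge (lam x) r with h3 | h3
  · rw [dev_low h3]
    have := h.φ_lev x hx.1 (by omega)
    simp only
    rw [this]
    ring
  · rcases lt_or_ge (lam x) r' with h4 | h4
    · rw [dev_mid h3 h4]
      simp
    · rw [dev_high (by omega) h4]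
      have := h.ψ_lev x (by omega) hx.2
      simp only
      rw [this]
      ring

/-- words act on the strip as in `X` -/
theorem Psi_word (h : Strip S R lam r r' φ ψ) {Ψ : G →* Equiv.Perm (Glued lam r r')}
    (hΨ : ∀ s ∈ S, ∀ p, (Ψ s p).1 = act lam r r' φ ψ s p.1) {w : List G} (hw : ∀ s ∈ w, s ∈ S)
    (hlen : (w.length : ℤ) ≤ R) (p : Glued lam r r') :
    (Ψ w.prod p).1 = ((dev lam r r' φ ψ (w.prod • p.1.1)).1,
      (dev lam r r' φ ψ (w.prod • p.1.1)).2 + p.1.2) := by
  rw [← h.rho_word w hw hlen p]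
  have key : ∀ w : List G, (∀ s ∈ w, s ∈ S) → Ψ w.prod = (w.map (rho h)).prod := by
    intro w hw
    induction w with
    | nil => simp
    | cons s w ih =>
      have hs : s ∈ S := hw s List.mem_cons_self
      rw [List.prod_cons, map_mul, List.map_cons, List.prod_cons,
        ih fun t ht => hw t (List.mem_cons_of_mem _ ht)]
      congr 1
      apply Equiv.ext
      intro p
      apply Subtype.ext
      rw [hΨ s hs, rho_apply h hs]
  rw [key w hw]

section

variable (h : Strip S R lam r r' φ ψ) {Ψ : G →* Equiv.Perm (Glued lam r r')}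
  (hΨ : ∀ s ∈ S, ∀ p, (Ψ s p).1 = act lam r r' φ ψ s p.1)
  (hc : ∀ (g : G) (m : ℤ) (p : Glued lam r r'), Ψ g (tau m p) = tau m (Ψ g p))
  {w : List G} (hw : ∀ s ∈ w, s ∈ S) (hlen : (w.length : ℤ) ≤ R) {n : ℤ} (hn : r' ≤ n)
  (hret : ∀ u d, r ≤ lam u → lam u < r + R → r - R ≤ lam d → lam d < r →
    Ret w.prod lam n r u d → Ret w.prod lam n r' (φ u) (φ d))

include h hΨ hc hw hlen hn hret

theorem follow (k : ℕ) : ∀ (y : X) (hy : r ≤ lam y ∧ lam y < r'),
    (∀ i < k, r ≤ ht (Ψ (w.prod ^ i) ⟨(y, 0), hy⟩)) → ht (Ψ (w.prod ^ k) ⟨(y, 0), hy⟩) < r →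
    ∃ (d : X) (hd : r - R ≤ lam d ∧ lam d < r), Ret w.prod lam n r y d ∧
      Ψ (w.prod ^ k) ⟨(y, 0), hy⟩ = dv h d ⟨hd.1, by have := h.hR; have := h.hrr; omega⟩ := by
  have hR := h.hR
  have hrr := h.hrr
  induction k using Nat.strong_induction_on with
  | _ k ih =>
  intro y hy h1 h2
  have hk : 0 < k := by
    rcases Nat.eq_zero_or_pos k with h0 | h0
    · exfalso
      subst h0
      rw [pow_zero, map_one] at h2
      have h3 : ht (⟨(y, 0), hy⟩ : Glued lam r r') = lam y := by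
        show lam y + (r' - r) * 0 = lam y
        ring
      have h4 : ht ((1 : Equiv.Perm (Glued lam r r')) ⟨(y, 0), hy⟩) = lam y := h3
      omega
    · exact h0
  obtain ⟨k, rfl⟩ : ∃ j, k = j + 1 := ⟨k - 1, by omega⟩
  have hlw := h.lam_word w hw y
  -- the first step
  have hstep : Ψ w.prod ⟨(y, 0), hy⟩ = dv h (w.prod • y) ⟨by omega, by omega⟩ := by
    apply Subtype.ext
    rw [Psi_word h hΨ hw hlen]
    show ((dev lam r r' φ ψ (w.prod • y)).1, (dev lam r r' φ ψ (w.prod • y)).2 + 0) =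
      dev lam r r' φ ψ (w.prod • y)
    rw [add_zero]
  have hsucc : ∀ i, Ψ (w.prod ^ (i + 1)) ⟨(y, 0), hy⟩ = Ψ (w.prod ^ i)
      (dv h (w.prod • y) ⟨by omega, by omega⟩) := by
    intro i
    rw [pow_succ, map_mul, Equiv.Perm.mul_apply, hstep]
  rcases lt_or_ge (lam (w.prod • y)) r with h3 | h3
  · -- the path goes below at once
    have hk0 : k = 0 := by
      by_contra hk0
      have h4 := h1 1 (by omega)
      rw [pow_one, hstep, ht_dv] at h4
      omega
    subst hk0
    refine ⟨w.prod • y, ⟨by omega, h3⟩, Ret.one hy.1 (by omega) h3, ?_⟩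
    rw [zero_add, pow_one, hstep]
  · rcases lt_or_ge (lam (w.prod • y)) r' with h4 | h4
    · -- the path stays in the strip
      have h5 : dv h (w.prod • y) ⟨by omega, by omega⟩ = ⟨(w.prod • y, 0), ⟨h3, h4⟩⟩ := by
        apply Subtype.ext
        show dev lam r r' φ ψ (w.prod • y) = (w.prod • y, 0)
        exact dev_mid h3 h4
      rw [h5] at hsucc
      obtain ⟨d, hd, hr, he⟩ := ih k (by omega) (w.prod • y) ⟨h3, h4⟩
        (fun i hi => by rw [← hsucc]; exact h1 (i + 1) (by omega)) (by rw [← hsucc]; exact h2)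
      exact ⟨d, hd, Ret.cons hy.1 (by omega) hr, by rw [hsucc, he]⟩
    · -- the path leaves the strip above
      have hψ := h.ψ_lev (w.prod • y) (by omega) (by omega)
      have hzm : r ≤ lam (ψ (w.prod • y)) ∧ lam (ψ (w.prod • y)) < r' := ⟨by omega, by omega⟩
      have h5 : dv h (w.prod • y) ⟨by omega, by omega⟩ = tau 1 ⟨(ψ (w.prod • y), 0), hzm⟩ := by
        apply Subtype.ext
        show dev lam r r' φ ψ (w.prod • y) = (ψ (w.prod • y), 0 + 1)
        rw [dev_high (by omega) h4, zero_add]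
      rw [h5] at hsucc
      have hht : ∀ i, ht (Ψ (w.prod ^ (i + 1)) ⟨(y, 0), hy⟩) =
          ht (Ψ (w.prod ^ i) ⟨(ψ (w.prod • y), 0), hzm⟩) + (r' - r) := by
        intro i
        rw [hsucc, hc, ht_tau, mul_one]
      -- first return below `r'`
      classical
      have hex : ∃ i, ht (Ψ (w.prod ^ i) ⟨(ψ (w.prod • y), 0), hzm⟩) < r := by
        refine ⟨k, ?_⟩
        have := hht k
        omega
      set i₀ := Nat.find hex with hi₀
      have hi1 : ht (Ψ (w.prod ^ i₀) ⟨(ψ (w.prod • y), 0), hzm⟩) < r := Nat.find_spec hex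
      have hi2 : ∀ i < i₀, r ≤ ht (Ψ (w.prod ^ i) ⟨(ψ (w.prod • y), 0), hzm⟩) := fun i hi => by
        have := Nat.find_min hex hi
        omega
      have hi3 : i₀ ≤ k := Nat.find_min' hex (by have := hht k; omega)
      obtain ⟨d', hd', hr', he'⟩ := ih i₀ (by omega) (ψ (w.prod • y)) hzm hi2 hi1
      have hφd := h.φ_lev d' (by omega) (by omega)
      have h6 : Ret w.prod lam n r' (w.prod • y) (φ d') := by
        have := hret (ψ (w.prod • y)) d' hzm.1 (by omega) hd'.1 hd'.2 hr'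
        rwa [h.φψ _ (by omega) (by omega)] at this
      have h7 : r ≤ lam (φ d') ∧ lam (φ d') < r' := ⟨by omega, by omega⟩
      have h8 : Ψ (w.prod ^ (i₀ + 1)) ⟨(y, 0), hy⟩ = ⟨(φ d', 0), h7⟩ := by
        rw [hsucc, hc, he']
        apply Subtype.ext
        show ((dev lam r r' φ ψ d').1, (dev lam r r' φ ψ d').2 + 1) = (φ d', 0)
        rw [dev_low hd'.2]
        rfl
      have h9 : i₀ + 1 ≠ k + 1 := by
        intro h9
        rw [← h9, h8] at h2
        have h10 : ht (⟨(φ d', 0), h7⟩ : Glued lam r r') = lam (φ d') := by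
          show lam (φ d') + (r' - r) * 0 = lam (φ d')
          ring
        omega
      have hadd : ∀ i, Ψ (w.prod ^ (i + (i₀ + 1))) ⟨(y, 0), hy⟩ =
          Ψ (w.prod ^ i) ⟨(φ d', 0), h7⟩ := by
        intro i
        rw [pow_add, map_mul, Equiv.Perm.mul_apply, h8]
      obtain ⟨d, hd, hr, he⟩ := ih (k + 1 - (i₀ + 1)) (by omega) (φ d') h7
        (fun i hi => by rw [← hadd]; exact h1 _ (by omega))
        (by rw [← hadd, Nat.sub_add_cancel (by omega)]; exact h2)
      refine ⟨d, hd, Ret.cons hy.1 (by omega) (h6.trans (by omega) hr), ?_⟩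
      rw [← he, ← hadd, Nat.sub_add_cancel (by omega)]

/-- If all points of the glued set are periodic, there is no escaping path through `r`. -/
theorem no_escape (hper : ∀ p : Glued lam r r', ∃ k : ℕ, 0 < k ∧ Ψ (w.prod ^ k) p = p) {u' : X}
    (hu1 : r - R ≤ lam u') (hu2 : lam u' < r) (hu3 : r ≤ lam (w.prod • u')) :
    ∃ d, Ret w.prod lam n r (w.prod • u') d := by
  have hR := h.hR
  have hrr := h.hrr
  have hlw := h.lam_word w hw u'
  have hu : r ≤ lam (w.prod • u') ∧ lam (w.prod • u') < r' := ⟨hu3, by omega⟩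
  obtain ⟨k, hk, hp⟩ := hper ⟨(w.prod • u', 0), hu⟩
  obtain ⟨k, rfl⟩ : ∃ j, k = j + 1 := ⟨k - 1, by omega⟩
  -- the inverse step
  have hinv : ∃ w' : List G, (∀ s ∈ w', s ∈ S) ∧ (w'.length : ℤ) ≤ R ∧ w'.prod = w.prod⁻¹ := by
    refine ⟨(w.map (fun x => x⁻¹)).reverse, ?_, by simpa using hlen, ?_⟩
    · intro s hs
      rw [List.mem_reverse, List.mem_map] at hs
      obtain ⟨t, ht, rfl⟩ := hs
      exact h.inv_mem t (hw t ht)
    · rw [List.prod_inv_reverse]
  obtain ⟨w', hw', hlen', hprod⟩ := hinv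
  have h1 : Ψ w.prod⁻¹ ⟨(w.prod • u', 0), hu⟩ = dv h u' ⟨hu1, by omega⟩ := by
    apply Subtype.ext
    rw [← hprod, Psi_word h hΨ hw' hlen', hprod]
    show ((dev lam r r' φ ψ (w.prod⁻¹ • w.prod • u')).1,
      (dev lam r r' φ ψ (w.prod⁻¹ • w.prod • u')).2 + 0) = dev lam r r' φ ψ u'
    rw [add_zero, inv_smul_smul]
  have h2 : ht (Ψ (w.prod ^ k) ⟨(w.prod • u', 0), hu⟩) < r := by
    have h3 : Ψ (w.prod ^ k) ⟨(w.prod • u', 0), hu⟩ = Ψ w.prod⁻¹ ⟨(w.prod • u', 0), hu⟩ := by
      conv_rhs => rw [← hp]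
      rw [← Equiv.Perm.mul_apply, ← map_mul, pow_succ', inv_mul_cancel_left]
    rw [h3, h1, ht_dv]
    exact hu2
  classical
  have hex : ∃ k, ht (Ψ (w.prod ^ k) ⟨(w.prod • u', 0), hu⟩) < r := ⟨k, h2⟩
  obtain ⟨d, -, hd, -⟩ := follow h hΨ hc hw hlen hn hret (Nat.find hex) (w.prod • u') hu
    (fun i hi => by
      have := Nat.find_min hex hi
      omega) (Nat.find_spec hex)
  exact ⟨d, hd⟩

end

end H84.BG
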